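import Mathlib
import Pool.Agent.T2h75.PD.All

/-!
# `k_min(r) = ⌊r/2⌋` for every `r ≥ 3` (full answer to Q1 of MP_19e396_co)

For every `r ≥ 3`, the smallest positive integer `k` such that every connected claw-free
`r`-regular graph `G` of order `n` satisfies `γ_{p,k}(G) ≤ n / (r + 1)` is `⌊r/2⌋`.

Both bounds are proved. The upper bound (the open part): if `r ≤ 2k + 1`, every finite claw-free
`r`-regular graph on `n` vertices has a `k`-power dominating set with at most `n / (r + 1)`
elements. The lower bound (known): for `k < ⌊r/2⌋` an explicit connected claw-free `r`-regular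
graph with fewer than `2 (r + 1)` vertices in which no single vertex is `k`-power dominating.

Idea of the proof of the upper bound. Put `K = k + 1`, so `r ≤ 2K - 1`. Call a non-empty set `L` of
at most `r` vertices a leaf if every vertex outside `L` with a neighbour in `L` has at least `K`
neighbours in `L`, and each vertex of `L` has a neighbour `u` outside `L` such that `N(u) ∩ L` is a
clique. Any single vertex of a leaf monitors all of `N[L]`. Take a maximal set `S₀` of vertices of
leaves with pairwise disjoint closed neighbourhoods, and extend it to a maximal `S` with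
`|M(S)| ≥ (r + 1) |S|`. If `M(S)` is not everything, then adding any vertex to `S` increases `M(S)`
by at most `r`, and one shows that then the complement of `M(S)` contains a leaf, which contradicts
the maximality of `S₀`. To find the leaf, one partitions the complement of `M = M(S)` into the
classes `F` of vertices `x` with the same closure of `M ∪ N[x]`; these have at least `K` elements,
and by a counting argument some class `F` contains a vertex with all its neighbours in `M ∪ F`.
Deleting from this `F` the vertices with a neighbour in the other classes leaves a leaf; this is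
the main lemma, proved with two double counting arguments.
-/

set_option autoImplicit false

namespace Pool.Agent.Results.MP_19e396_co.ClawFreeRegular

/-- `G` is claw-free: it has no induced `K_{1,3}`, that is, no vertex with three distinct, pairwise
non-adjacent neighbours. -/
def IsClawFree {V : Type} (G : SimpleGraph V) : Prop :=
  ¬ ∃ v a b c : V, G.Adj v a ∧ G.Adj v b ∧ G.Adj v c ∧ a ≠ b ∧ a ≠ c ∧ b ≠ c ∧
    ¬ G.Adj a b ∧ ¬ G.Adj a c ∧ ¬ G.Adj b c

/-- `Reach G k S M`: the set `M` is obtained from the closed neighbourhood `N[S]` by finitely many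
applications of the propagation rule: if a vertex `v ∈ M` has at most `k` neighbours outside `M`,
then all neighbours of `v` are added to `M`. -/
inductive Reach {V : Type} (G : SimpleGraph V) (k : ℕ) (S : Set V) : Set V → Prop
  | start : Reach G k S {v | v ∈ S ∨ ∃ s ∈ S, G.Adj s v}
  | step (M : Set V) (v : V) (hM : Reach G k S M) (hv : v ∈ M)
      (hk : {w | G.Adj v w ∧ w ∉ M}.ncard ≤ k) : Reach G k S (M ∪ {w | G.Adj v w})

/-- `S` is a `k`-power dominating set: the propagation from `N[S]` reaches the whole vertex set. -/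
def IsPowerDominating {V : Type} (G : SimpleGraph V) (k : ℕ) (S : Set V) : Prop :=
  Reach G k S Set.univ

/-- The `k`-power domination number: the minimum size of a `k`-power dominating set. -/
noncomputable def powerDominationNumber {V : Type} (G : SimpleGraph V) (k : ℕ) : ℕ :=
  sInf {m | ∃ S : Set V, S.ncard = m ∧ IsPowerDominating G k S}

/-- Every connected claw-free `r`-regular graph of order `n` satisfies
`γ_{p,k}(G) ≤ n / (r + 1)`, written as `(r + 1) * γ_{p,k}(G) ≤ n`. -/
def DominationBound (r k : ℕ) : Prop :=
  ∀ (V : Type) [Fintype V] (G : SimpleGraph V), G.Connected → IsClawFree G →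
    (∀ v, {w | G.Adj v w}.ncard = r) →
    (r + 1) * powerDominationNumber G k ≤ Fintype.card V

open Pool.Agent.T2h75.PD in
theorem coe_Nb {V : Type} [Fintype V] (G : SimpleGraph V) (v : V) :
    ((Nb G v : Finset V) : Set V) = {w | G.Adj v w} := by
  ext w; simp [Nb]

open Pool.Agent.T2h75.PD in
theorem card_Nb {V : Type} [Fintype V] (G : SimpleGraph V) (v : V) :
    (Nb G v).card = {w | G.Adj v w}.ncard := by
  rw [← coe_Nb, Set.ncard_coe_finset]

theorem start_subset {V : Type} {G : SimpleGraph V} {k : ℕ} {S M : Set V} (h : Reach G k S M) :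
    {v | v ∈ S ∨ ∃ s ∈ S, G.Adj s v} ⊆ M := by
  induction h with
  | start => exact subset_rfl
  | step M v _ _ _ ih => exact ih.trans Set.subset_union_left

open Classical Pool.Agent.T2h75.PD in
theorem isPD_of_cl {V : Type} [Fintype V] (G : SimpleGraph V) (k : ℕ) (S : Finset V)
    (h : cl G k (S.biUnion (NbC G)) = Finset.univ) : IsPowerDominating G k (S : Set V) := by
  -- a maximal reachable set
  have hne : {m | ∃ M, Reach G k (S : Set V) M ∧ M.ncard = m}.Nonempty :=
    ⟨_, _, Reach.start, rfl⟩
  have hbd : BddAbove {m | ∃ M, Reach G k (S : Set V) M ∧ M.ncard = m} := by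
    refine ⟨Fintype.card V, ?_⟩
    rintro m ⟨M, _, rfl⟩
    have := Set.ncard_le_ncard (Set.subset_univ M) Set.finite_univ
    rwa [Set.ncard_univ, Nat.card_eq_fintype_card] at this
  obtain ⟨M, hM, hmax⟩ := Nat.sSup_mem hne hbd
  have hcl : ∀ v ∈ M, {w | G.Adj v w ∧ w ∉ M}.ncard ≤ k → {w | G.Adj v w} ⊆ M := by
    intro v hv hk
    have h1 : (M ∪ {w | G.Adj v w}).ncard ≤ M.ncard := by
      rw [hmax]
      exact le_csSup hbd ⟨_, Reach.step M v hM hv hk, rfl⟩
    have h2 : M = M ∪ {w | G.Adj v w} :=
      Set.eq_of_subset_of_ncard_le Set.subset_union_left h1 (Set.toFinite _)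
    rw [h2]
    exact Set.subset_union_right
  have hMu : M = Set.univ := by
    have hc : Closed G k (Finset.univ.filter (fun v => v ∈ M)) := by
      intro v hv hk
      rw [Finset.mem_filter] at hv
      have h3 : {w | G.Adj v w ∧ w ∉ M}.ncard ≤ k := by
        have h4 : {w | G.Adj v w ∧ w ∉ M} =
            ((Nb G v \ Finset.univ.filter (fun v => v ∈ M) : Finset V) : Set V) := by
          ext w; simp [Nb]
        rw [h4, Set.ncard_coe_finset]
        exact hk
      intro w hw
      rw [Finset.mem_filter]
      refine ⟨Finset.mem_univ _, hcl v hv.2 h3 ?_⟩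
      simpa [Nb] using hw
    have hs : S.biUnion (NbC G) ⊆ Finset.univ.filter (fun v => v ∈ M) := by
      intro v hv
      rw [Finset.mem_biUnion] at hv
      obtain ⟨s, hs, hv⟩ := hv
      rw [Finset.mem_filter]
      refine ⟨Finset.mem_univ _, start_subset hM ?_⟩
      rw [NbC, Finset.mem_insert] at hv
      rcases hv with rfl | hv
      · exact Or.inl hs
      · exact Or.inr ⟨s, hs, by simpa [Nb] using hv⟩
    rw [Set.eq_univ_iff_forall]
    intro v
    have hv : v ∈ cl G k (S.biUnion (NbC G)) := by rw [h]; exact Finset.mem_univ _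
    rw [cl, Finset.mem_filter] at hv
    have := hv.2 _ hc hs
    rw [Finset.mem_filter] at this
    exact this.2
  rw [hMu] at hM
  exact hM

/-- The upper bound (without connectivity): `(r + 1) * γ_{p,k}(G) ≤ n` if `r ≤ 2k + 1`. -/
theorem upper_bound (V : Type) [Fintype V] (G : SimpleGraph V) (k r : ℕ) (hr : r ≤ 2 * k + 1)
    (hcf : IsClawFree G) (hreg : ∀ v, {w | G.Adj v w}.ncard = r) :
    (r + 1) * powerDominationNumber G k ≤ Fintype.card V := by
  classical
  have hcf' : Pool.Agent.T2h75.PD.ClawFree G := by
    intro v a b c ha hb hc hab hac hbc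
    by_contra hcon
    push Not at hcon
    exact hcf ⟨v, a, b, c, ha, hb, hc, hab, hac, hbc, hcon.1, hcon.2.1, hcon.2.2⟩
  obtain ⟨S, hS, hcard⟩ := Pool.Agent.T2h75.PD.upper_all G k r hr
    (fun v => by rw [card_Nb]; exact hreg v) hcf'
  have h1 : powerDominationNumber G k ≤ S.card :=
    Nat.sInf_le ⟨(S : Set V), Set.ncard_coe_finset S, isPD_of_cl G k S hS⟩
  exact (Nat.mul_le_mul_left _ h1).trans hcard

open Pool.Agent.T2h75.PD in
/-- In the example no set with at most one element is `k`-power dominating if `k < t`. -/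
theorem example_two_le (t m k : ℕ) (hm : 0 < m) (hk : k < t) (S : Set (VV t m))
    (hS : IsPowerDominating (exG t m) k S) : 2 ≤ S.ncard := by
  have : NeZero t := ⟨by omega⟩
  by_contra hlt
  have hle : S.ncard ≤ 1 := by omega
  have hsub : ∃ s : VV t m, S ⊆ {s} := by
    rw [Set.ncard_le_one_iff_eq (Set.toFinite _)] at hle
    rcases hle with h | ⟨s, h⟩
    · exact ⟨Sum.inl ⟨0, hm⟩, by rw [h]; exact Set.empty_subset _⟩
    · exact ⟨s, by rw [h]⟩
  obtain ⟨s, hs⟩ := hsub
  obtain ⟨D, hDne, hsD, hsD', hD⟩ := obstruct t m s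
  have key : ∀ M, Reach (exG t m) k S M → ∀ w ∈ D, w ∉ M := by
    intro M hM
    induction hM with
    | start =>
      rintro w hw (h | ⟨s', hs', hadj⟩)
      · have := hs h
        rw [Set.mem_singleton_iff] at this
        rw [this] at hw
        exact hsD hw
      · have := hs hs'
        rw [Set.mem_singleton_iff] at this
        rw [this] at hadj
        exact hsD' w hw hadj
    | step M v hM hv hk' ih =>
      rintro w hw (h | h)
      · exact ih w hw h
      · have hvD : v ∉ D := fun h' => ih v h' hv
        rcases hD v hvD with h1 | ⟨c, hc⟩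
        · exact h1 w hw h
        · have h2 : (Set.range (fun y : ZMod t => (Sum.inr (c, y) : VV t m))) ⊆
              {w | (exG t m).Adj v w ∧ w ∉ M} := by
            rintro _ ⟨y, rfl⟩
            exact ⟨(hc y).2, ih _ (hc y).1⟩
          have h3 := Set.ncard_le_ncard h2 (Set.toFinite _)
          have hinj : Function.Injective (fun y : ZMod t => (Sum.inr (c, y) : VV t m)) := by
            intro y z hyz
            simpa using hyz
          have h4 : (Set.range (fun y : ZMod t => (Sum.inr (c, y) : VV t m))).ncard = t := by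
            rw [← Set.image_univ, Set.ncard_image_of_injective _ hinj, Set.ncard_univ,
              Nat.card_eq_fintype_card, ZMod.card]
          have h5 : t ≤ k := h4.symm.le.trans (h3.trans hk')
          omega
  obtain ⟨w, hw⟩ := hDne
  exact key Set.univ hS w hw (Set.mem_univ _)

theorem lower_bound (r k : ℕ) (hr : 3 ≤ r) (hk1 : 1 ≤ k) (hk : k < r / 2) :
    ¬ DominationBound r k := by
  intro hB
  obtain ⟨t, m, hm, hrt⟩ : ∃ t m : ℕ, (m = 1 ∨ m = 2) ∧ r = 2 * t + m - 1 := by
    rcases Nat.even_or_odd' r with ⟨s, h | h⟩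
    · exact ⟨s, 1, Or.inl rfl, by omega⟩
    · exact ⟨s, 2, Or.inr rfl, by omega⟩
  have ht2 : 2 ≤ t := by omega
  have hkt : k < t := by omega
  have : NeZero t := ⟨by omega⟩
  have hm0 : 0 < m := by omega
  have h1 := hB (Pool.Agent.T2h75.PD.VV t m) (Pool.Agent.T2h75.PD.exG t m)
    (Pool.Agent.T2h75.PD.conn t m hm0)
    (by
      rintro ⟨v, a, b, c, ha, hb, hc, hab, hac, hbc, h1, h2, h3⟩
      rcases Pool.Agent.T2h75.PD.clawfree_ex t m v a b c ha hb hc hab hac hbc with h | h | h
      · exact h1 h
      · exact h2 h
      · exact h3 h)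
    (fun v => by
      rw [← card_Nb, hrt]
      exact Pool.Agent.T2h75.PD.card_nb t m ht2 hm v)
  rw [Pool.Agent.T2h75.PD.card_VV] at h1
  have hne : {n | ∃ S : Set (Pool.Agent.T2h75.PD.VV t m), S.ncard = n ∧
      IsPowerDominating (Pool.Agent.T2h75.PD.exG t m) k S}.Nonempty := by
    refine ⟨_, Set.univ, rfl, ?_⟩
    have h := Reach.start (G := Pool.Agent.T2h75.PD.exG t m) (k := k)
      (S := (Set.univ : Set (Pool.Agent.T2h75.PD.VV t m)))
    have h2 : {v | v ∈ (Set.univ : Set (Pool.Agent.T2h75.PD.VV t m)) ∨
        ∃ s ∈ (Set.univ : Set (Pool.Agent.T2h75.PD.VV t m)),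
          (Pool.Agent.T2h75.PD.exG t m).Adj s v} = Set.univ := by
      ext v; simp
    rw [h2] at h
    exact h
  have h2 : 2 ≤ powerDominationNumber (Pool.Agent.T2h75.PD.exG t m) k := by
    obtain ⟨S, hS1, hS2⟩ := Nat.sInf_mem hne
    have := example_two_le t m k hm0 hkt S hS2
    rw [hS1] at this
    exact this
  have h3 : (r + 1) * 2 ≤ (r + 1) * powerDominationNumber (Pool.Agent.T2h75.PD.exG t m) k :=
    Nat.mul_le_mul_left _ h2
  omega

/-- **Theorem** (full answer to Q1): for every `r ≥ 3` the smallest positive integer `k` such that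
every connected claw-free `r`-regular graph `G` of order `n` satisfies
`(r + 1) * γ_{p,k}(G) ≤ n` is `⌊r/2⌋`. -/
theorem result (r : ℕ) (hr : 3 ≤ r) : IsLeast {k : ℕ | 1 ≤ k ∧ DominationBound r k} (r / 2) := by
  refine ⟨⟨by omega, ?_⟩, ?_⟩
  · intro V _ G _ hcf hreg
    exact upper_bound V G (r / 2) r (by omega) hcf hreg
  · rintro k ⟨hk1, hk⟩
    by_contra hlt
    exact lower_bound r k hr hk1 (by omega) hk

end Pool.Agent.Results.MP_19e396_co.ClawFreeRegular
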